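import Pool.Agent.H500.ME.Stm
import Pool.Agent.H643.AS.Bridge

set_option autoImplicit false
set_option linter.unusedSectionVars false
set_option linter.deprecated false

/-!
# Project ME (helper500), part B8 (by helper115): characters of finite order
-/

namespace Pool.Agent.H115.ME.ARC

open NumberField IsDedekindDomain Filter Topology
open Pool.Agent.Q5.BR Pool.Agent.Q92.AR Pool.Agent.Q92.PA
open Pool.Agent.W353.NF
open Pool.Agent.W401.Cheb (GK IsFrob IsInert)
open Pool.Agent.W401.Frob (smulComm isInv)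
open Pool.Agent.H500.HC (QBar)
open Pool.Agent.H500.ME
open Pool.Agent.H643.AS.Bridge (exists_field exists_emb isFrob_restrict)

section
variable {K : Type} [Field K] [NumberField K]

/-- there is a Frobenius element for every maximal ideal above `v` -/
theorem exists_frob_at (v : HeightOneSpectrum (𝓞 K)) (Q : Ideal (𝓞 (AlgebraicClosure K)))
    (hQm : Q.IsMaximal)
    (hQv : Q.comap (algebraMap (𝓞 K) (𝓞 (AlgebraicClosure K))) = v.asIdeal) :
    ∃ σ : GK K, ∀ x : 𝓞 (AlgebraicClosure K), σ • x - x ^ Ideal.absNorm v.asIdeal ∈ Q := by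
  classical
  have : SMulCommClass (GK K) (𝓞 K) (𝓞 (AlgebraicClosure K)) := smulComm
  have : Algebra.IsInvariant (𝓞 K) (𝓞 (AlgebraicClosure K)) (GK K) := isInv
  let _ : TopologicalSpace (𝓞 (AlgebraicClosure K)) := ⊥
  have : DiscreteTopology (𝓞 (AlgebraicClosure K)) := ⟨rfl⟩
  have : ContinuousSMul (GK K) (𝓞 (AlgebraicClosure K)) := by
    rw [continuousSMul_iff_stabilizer_isOpen]
    intro x
    have h1 := stabilizer_isOpen_of_isIntegral (K := K) (x : AlgebraicClosure K)
    refine Subgroup.isOpen_mono ?_ h1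
    intro g h
    rw [MulAction.mem_stabilizer_iff] at h ⊢
    exact RingOfIntegers.ext h
  have hvm : v.asIdeal.IsMaximal := v.isMaximal
  have : Q.LiesOver v.asIdeal := ⟨hQv.symm⟩
  let _ : Field (𝓞 K ⧸ v.asIdeal) := Ideal.Quotient.field v.asIdeal
  let _ : Field ((𝓞 (AlgebraicClosure K)) ⧸ Q) := Ideal.Quotient.field Q
  have : Finite (𝓞 K ⧸ v.asIdeal) := Ideal.finiteQuotientOfFreeOfNeBot v.asIdeal v.ne_bot
  let _ : Fintype (𝓞 K ⧸ v.asIdeal) := Fintype.ofFinite _
  have : Algebra.IsAlgebraic (𝓞 K ⧸ v.asIdeal) ((𝓞 (AlgebraicClosure K)) ⧸ Q) := by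
    have : Algebra.IsIntegral (𝓞 K ⧸ v.asIdeal) ((𝓞 (AlgebraicClosure K)) ⧸ Q) := inferInstance
    exact Algebra.IsIntegral.isAlgebraic
  obtain ⟨g, hg⟩ := Ideal.Quotient.stabilizerHom_surjective_of_profinite (G := GK K) v.asIdeal Q
    (FiniteField.frobeniusAlgEquivOfAlgebraic (𝓞 K ⧸ v.asIdeal) ((𝓞 (AlgebraicClosure K)) ⧸ Q))
  refine ⟨g.1, fun x => ?_⟩
  have h1 := DFunLike.congr_fun hg (Ideal.Quotient.mk Q x)
  rw [Ideal.Quotient.stabilizerHom_apply] at h1
  rw [← Ideal.Quotient.mk_eq_mk_iff_sub_mem, map_pow]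
  have h2 : Ideal.absNorm v.asIdeal = Fintype.card (𝓞 K ⧸ v.asIdeal) := by
    rw [Ideal.absNorm_apply, Submodule.cardQuot_apply, Nat.card_eq_fintype_card]
  rw [h2]
  exact h1

/-- inertia elements fix the fields which are unramified -/
theorem inert_fix {M : Type} [Field M] [NumberField M] [Algebra K M]
    {v : HeightOneSpectrum (𝓞 K)} (hv : Unramified M v) {σ : GK K} (hσ : IsInert v σ)
    (i : M →ₐ[K] AlgebraicClosure K) : act K M σ i = i := by
  obtain ⟨Q, hQm, hQv, hQ⟩ := hσ
  obtain ⟨φ, hφ⟩ := exists_frob_at v Q hQm hQv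
  apply rd_injective hv hQm hQv hφ
  rw [rd_eq_iff]
  intro a
  exact hQ (oi i a)

end

/-- a homomorphism with open kernel is continuous -/
theorem cont_of_ker {G H A : Type} [Group G] [TopologicalSpace G] [IsTopologicalGroup G] [Group H]
    [TopologicalSpace A] (f : G →* H) (hf : IsOpen (f.ker : Set G)) (j : H → A) :
    Continuous fun s => j (f s) := by
  have h : IsLocallyConstant fun s => j (f s) := by
    rw [IsLocallyConstant.iff_exists_open]
    intro s
    refine ⟨(fun g => s⁻¹ * g) ⁻¹' (f.ker : Set G), hf.preimage (continuous_const_mul s⁻¹), ?_, ?_⟩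
    · show s⁻¹ * s ∈ f.ker
      rw [inv_mul_cancel]
      exact f.ker.one_mem
    · intro g hg
      have h1 : f (s⁻¹ * g) = 1 := hg
      rw [map_mul, map_inv, inv_mul_eq_one] at h1
      show j (f g) = j (f s)
      rw [h1]
  exact h.continuous

theorem main : Pool.Agent.H500.ME.S_ARC := by
  intro K _ _ lam hopen ℓ _ κ
  classical
  obtain ⟨M, hfd, hgal, hfix⟩ := exists_field lam.ker hopen
  have hnf : NumberField M := NumberField.of_module_finite K M
  set res : GK K →* (M ≃ₐ[K] M) := AlgEquiv.restrictNormalHom M with hres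
  have hsurj : Function.Surjective res := AlgEquiv.restrictNormalHom_surjective _
  have hker : res.ker = lam.ker := by
    rw [hres, IntermediateField.restrictNormalHom_ker, hfix]
  set C : Subgroup QBarˣ := lam.range with hC
  obtain ⟨θC, hθC⟩ : ∃ θC : (M ≃ₐ[K] M) →* C, ∀ g, θC (res g) = lam.rangeRestrict g :=
    ⟨MonoidHom.liftOfSurjective _ hsurj ⟨lam.rangeRestrict, by
      rw [hker, MonoidHom.ker_rangeRestrict]⟩, fun g =>
      MonoidHom.liftOfRightInverse_comp_apply _ _ _ ⟨lam.rangeRestrict, _⟩ g⟩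
  have hθC' : ∀ g, ((θC (res g) : C) : QBarˣ) = lam g := fun g => by
    rw [hθC]
    rfl
  have hfinC : Finite C := by
    have hs : Function.Surjective θC := by
      rintro ⟨c, g, rfl⟩
      exact ⟨res g, Subtype.ext (hθC' g)⟩
    exact Finite.of_surjective θC hs
  obtain ⟨ι, hι⟩ := exists_emb C
  set ψ : (M ≃ₐ[K] M) →* ℂˣ := ι.comp θC with hψ
  obtain ⟨N, hN, hram, hray⟩ := recip K M ψ
  let γ : Dv K →+ Additive C :=
    Finsupp.liftAddHom fun v => (zmultiplesHom (Additive C)) (Additive.ofMul (θC (frob M v)))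
  have hγ1 : ∀ v, γ (Finsupp.single v 1) = Additive.ofMul (θC (frob M v)) := by
    intro v
    show Finsupp.liftAddHom _ (Finsupp.single v 1) = _
    rw [Finsupp.liftAddHom_apply_single]
    exact one_zsmul _
  have hγ : art ψ = (MonoidHom.toAdditive ι).comp γ := by
    refine Finsupp.addHom_ext fun v k => ?_
    rw [art_single]
    have h1 : (Finsupp.single v k : Dv K) = k • Finsupp.single v 1 := by
      rw [Finsupp.smul_single, smul_eq_mul, mul_one]
    rw [h1, map_zsmul, AddMonoidHom.comp_apply, hγ1]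
    rfl
  let φ : Dv K →+ Additive QBarˣ := (MonoidHom.toAdditive C.subtype).comp γ
  have hφ1 : ∀ v, at1 φ v = (((θC (frob M v) : C) : QBarˣ) : QBar) := by
    intro v
    show (((MonoidHom.toAdditive C.subtype) (γ (Finsupp.single v 1))).toMul : QBar) = _
    rw [hγ1]
    rfl
  have hunr : ∀ w : HeightOneSpectrum (𝓞 K), (N : 𝓞 K) ∉ w.asIdeal → Unramified M w := by
    intro w hw
    by_contra h
    exact hw (hram w h)
  refine ⟨N, φ, ⟨Nat.pos_of_ne_zero hN, ?_, ?_, ?_, ?_⟩, ?_⟩
  · exact cont_of_ker lam hopen fun x : QBarˣ => κ (x : QBar)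
  · intro x hx
    have h1 := hray x hx
    rw [hγ] at h1
    have h2 : γ (prin x) = 0 := by
      have h3 : ι (γ (prin x)).toMul = ι 1 := by
        rw [map_one]
        exact Additive.ofMul.injective h1
      exact Additive.toMul.injective (hι h3)
    have h4 : typU (fun _ => 0) x = 1 := by
      unfold typU
      exact Finset.prod_eq_one fun σ _ => zpow_zero _
    rw [h4]
    show (MonoidHom.toAdditive C.subtype) (γ (prin x)) = _
    rw [h2, map_zero]
    rfl
  · intro w hw s hs
    have h1 : s ∈ M.fixingSubgroup := by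
      rw [IntermediateField.mem_fixingSubgroup_iff]
      intro x hx
      exact DFunLike.congr_fun (inert_fix (hunr w hw) hs M.val) (⟨x, hx⟩ : M)
    rw [hfix, MonoidHom.mem_ker] at h1
    rw [MonoidHom.comp_apply, h1, map_one]
  · intro w hw s hs
    have h1 : IsFrobenius w (res s) := isFrob_restrict hs M
    obtain ⟨h, hh⟩ := isFrobenius_conj (hunr w hw) h1 (frob_spec w)
    have h2 : θC (frob M w) = θC (res s) := by
      rw [hh, map_mul, map_mul, map_inv, mul_comm, mul_inv_cancel_left]
    rw [hφ1, h2, hθC']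
    rfl
  · intro τ
    refine Eventually.of_forall fun w => ?_
    rw [hφ1, zpow_zero]
    have h1 : (θC (frob M w)) ^ Nat.card C = 1 := pow_card_eq_one'
    have h2 : (τ (((θC (frob M w) : C) : QBarˣ) : QBar)) ^ Nat.card C = 1 := by
      have h3 : τ ((((θC (frob M w)) ^ Nat.card C : C) : QBarˣ) : QBar) =
          τ (((1 : C) : QBarˣ) : QBar) := by
        rw [h1]
      push_cast at h3
      rw [map_pow, map_one] at h3
      exact h3
    have h3 := Complex.norm_eq_one_of_pow_eq_one h2 Nat.card_pos.ne'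
    rw [h3]
    norm_num

end Pool.Agent.H115.ME.ARC
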